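import Pool.Agent.H522R3.Nlr.Core

/-!
# Loss of boundedness in a nonlocal two-component reaction system

We work in dimension `N = 1` with `L₁ = J_K`, `L₂ = -Δ` and `f(u) = u³`.
-/

open MeasureTheory Set Filter
open scoped ContDiff

namespace Pool.Agent.Results.MP_360b3f_an.NoBoundedSolution

/-- `J_K w (x) = ⟨K⟩ w(x) - (K * w)(x)`, where `⟨K⟩ = ∫ K`. -/
noncomputable def nonlocalOp (K w : ℝ → ℝ) (x : ℝ) : ℝ :=
  (∫ y, K y) * w x - ∫ y, K y * w (x - y)

/-- `(u, v)` is a (weak) solution on `[0, T] × ℝ`, with `u` bounded on `[0, T] × ℝ`, of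
`u_t + J_K u = v f(u)`, `v_t - Δ v = - v f(u)`, `u(0, ·) = u₀`, `v(0, ·) = 1`.
Here `u t x` stands for `u(t, x)`. The functions are measurable, `0 ≤ u ≤ M` for some constant `M`
and `0 ≤ v ≤ 1`; the first equation is integrated in time and holds for every `t ∈ [0, T]` and
almost every `x`, the second one is integrated in time and tested with every smooth compactly
supported function of `x`. Every classical or mild solution with bounded `u` satisfies this. -/
structure IsBoundedSolution (K f u₀ : ℝ → ℝ) (T : ℝ) (u v : ℝ → ℝ → ℝ) : Prop where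
  measurable_u : Measurable (Function.uncurry u)
  measurable_v : Measurable (Function.uncurry v)
  u_nonneg : ∀ t ∈ Icc 0 T, ∀ x, 0 ≤ u t x
  u_bounded : ∃ M : ℝ, ∀ t ∈ Icc 0 T, ∀ x, u t x ≤ M
  v_mem : ∀ t ∈ Icc 0 T, ∀ x, v t x ∈ Icc (0:ℝ) 1
  eq_u : ∀ t ∈ Icc 0 T, ∀ᵐ x, u t x
    = u₀ x + ∫ s in (0:ℝ)..t, (v s x * f (u s x) - nonlocalOp K (u s) x)
  eq_v : ∀ φ : ℝ → ℝ, ContDiff ℝ ∞ φ → HasCompactSupport φ → ∀ t ∈ Icc 0 T,
    ∫ x, v t x * φ x = (∫ x, φ x)
      + ∫ s in (0:ℝ)..t, ∫ x, (v s x * deriv (deriv φ) x - v s x * f (u s x) * φ x)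

open H522R3.Nlr in
/-- A bounded solution on `[0, T]`, extended by zero, is a solution in the internal sense. -/
theorem toSol {K u₀ : ℝ → ℝ} {T : ℝ} (hT : 0 < T) {u v : ℝ → ℝ → ℝ}
    (h : IsBoundedSolution K (fun r => r ^ 3) u₀ T u v) :
    ∃ M u' v', Sol K u₀ T M u' v' := by
  obtain ⟨M, hM⟩ := h.u_bounded
  have h0 : (0:ℝ) ∈ Icc 0 T := ⟨le_rfl, hT.le⟩
  have hM0 : 0 ≤ M := (h.u_nonneg 0 h0 0).trans (hM 0 h0 0)
  have hms : MeasurableSet {z : ℝ × ℝ | z.1 ∈ Icc 0 T} := measurable_fst measurableSet_Icc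
  classical
  refine ⟨M, fun t x => if t ∈ Icc 0 T then u t x else 0,
    fun t x => if t ∈ Icc 0 T then v t x else 0, ?_, ?_, ?_, ?_, ?_, ?_⟩
  · exact Measurable.ite hms h.measurable_u measurable_const
  · exact Measurable.ite hms h.measurable_v measurable_const
  · intro t x
    by_cases ht : t ∈ Icc 0 T
    · simp only [ht, if_true]
      exact ⟨h.u_nonneg t ht x, hM t ht x⟩
    · simp only [ht, if_false]
      exact ⟨le_rfl, hM0⟩
  · intro t x
    by_cases ht : t ∈ Icc 0 T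
    · simp only [ht, if_true]
      exact h.v_mem t ht x
    · simp only [ht, if_false]
      exact ⟨le_rfl, zero_le_one⟩
  · intro t ht
    filter_upwards [h.eq_u t ht] with x hx
    simp only [ht, if_true]
    rw [hx]
    congr 1
    refine intervalIntegral.integral_congr fun s hs => ?_
    rw [uIcc_of_le ht.1] at hs
    have hs' : s ∈ Icc 0 T := ⟨hs.1, hs.2.trans ht.2⟩
    simp only [hs', if_true, cv, nonlocalOp]
    ring
  · intro φ hφ t ht
    have h1 := h.eq_v φ hφ.1 hφ.2 t ht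
    simp only [ht, if_true]
    rw [h1]
    congr 1
    refine intervalIntegral.integral_congr fun s hs => ?_
    rw [uIcc_of_le ht.1] at hs
    have hs' : s ∈ Icc 0 T := ⟨hs.1, hs.2.trans ht.2⟩
    simp only [hs', if_true]

/-- For every smooth compactly supported kernel `K ≥ 0` on `ℝ` and every `T > 0` there is a
compactly supported Lipschitz function `u₀ ≥ 0` for which the system with `N = 1`, `L₁ = J_K`,
`L₂ = -Δ`, `f(u) = u³` has no solution on `[0, T]` with `u` bounded on `[0, T] × ℝ`. -/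
theorem result : ∀ K : ℝ → ℝ, ContDiff ℝ ∞ K → HasCompactSupport K → (∀ x, 0 ≤ K x) →
    ∀ T : ℝ, 0 < T → ∃ u₀ : ℝ → ℝ, (∃ L, LipschitzWith L u₀) ∧ HasCompactSupport u₀ ∧
      (∀ x, 0 ≤ u₀ x) ∧
      ¬ ∃ u v : ℝ → ℝ → ℝ, IsBoundedSolution K (fun r => r ^ 3) u₀ T u v := by
  intro K hK hKc hK0 T hT
  obtain ⟨u₀, h1, h2, h3, h4⟩ := H522R3.Nlr.no_sol (K := K) ⟨hK, hKc⟩ hK0 hT
  refine ⟨u₀, h1, h2, h3, ?_⟩
  rintro ⟨u, v, h⟩
  obtain ⟨M, u', v', S⟩ := toSol hT h
  exact h4 M u' v' S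

end Pool.Agent.Results.MP_360b3f_an.NoBoundedSolution
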